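import Pool.Agent.L7h48.SGQ.Stm
import Pool.Agent.L7h37.SGP.MK

set_option autoImplicit false

/-!
# Project SGQ, part MK: Minkowski's bound for `ℚ(√-D)`, all `D`
-/

namespace Pool.Agent.L7h37.SGQ

open Pool.Agent.L7h48.SGQ
open Pool.Agent.L7h37.SGP
open Pool.Agent.Y715.Gi (QB KK GK i₀_mem)
open Pool.Agent.L7h22.SG.D2 (finrank_KK)
open Polynomial NumberField

section

variable {K : Type} [Field K] [NumberField K] {t : K} {D : ℕ}

lemma discr_le4 (hD : D ≠ 0) (ht : t ^ 2 = -(D : K)) (hK : Module.finrank ℚ K = 2) (w : 𝓞 K)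
    (hw : t = (w : K)) : |discr K| ≤ 4 * D := by
  classical
  have hcard : Fintype.card (Module.Free.ChooseBasisIndex ℤ (𝓞 K)) = 2 := by
    rw [← Module.finrank_eq_card_basis (integralBasis K), hK]
  let e : Module.Free.ChooseBasisIndex ℤ (𝓞 K) ≃ Fin 2 := Fintype.equivFinOfCardEq hcard
  let b := (integralBasis K).reindex e
  have hint : ∀ (x : 𝓞 K) (i : Fin 2), ∃ n : ℤ, b.repr (x : K) i = n := by
    intro x i
    refine ⟨(RingOfIntegers.basis K).repr x (e.symm i), ?_⟩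
    rw [Module.Basis.repr_reindex_apply]
    exact integralBasis_repr_apply K x _
  let c : Fin 2 → K := ![(1 : K), t]
  let P : Matrix (Fin 2) (Fin 2) ℚ := fun i j => b.repr (c i) j
  have hP : Matrix.mulVec (P.map (algebraMap ℚ K)) b = c := by
    funext i
    rw [Matrix.mulVec, dotProduct]
    conv_rhs => rw [← b.sum_repr (c i)]
    refine Finset.sum_congr rfl fun j _ => ?_
    rw [Algebra.smul_def]
    rfl
  have h1 := Algebra.discr_of_matrix_mulVec (b : Fin 2 → K) P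
  rw [hP] at h1
  have h2 : Algebra.discr ℚ (b : Fin 2 → K) = discr K := by
    rw [coe_discr, ← Algebra.discr_reindex ℚ (integralBasis K) e]
    congr 1
    funext i
    exact (integralBasis K).reindex_apply e i
  obtain ⟨a0, ha0⟩ := hint 1 0
  obtain ⟨a1, ha1⟩ := hint 1 1
  obtain ⟨w0, hw0⟩ := hint w 0
  obtain ⟨w1, hw1⟩ := hint w 1
  rw [show ((1 : 𝓞 K) : K) = 1 from rfl] at ha0 ha1
  rw [← hw] at hw0 hw1
  have hdet : P.det = ((a0 * w1 - a1 * w0 : ℤ) : ℚ) := by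
    rw [Matrix.det_fin_two]
    change b.repr (1 : K) 0 * b.repr t 1 - b.repr (1 : K) 1 * b.repr t 0 = _
    rw [ha0, ha1, hw0, hw1]
    push_cast
    ring
  rw [h2, discr_t hD ht hK, hdet] at h1
  set n : ℤ := a0 * w1 - a1 * w0
  have h3 : (-(4 * D : ℤ)) = n ^ 2 * discr K := by
    have h5 : ((-(4 * D : ℤ) : ℤ) : ℚ) = ((n ^ 2 * discr K : ℤ) : ℚ) := by
      push_cast
      exact h1
    exact_mod_cast h5
  have hn : n ≠ 0 := by
    intro h
    rw [h] at h3
    have h4 : (0 : ℤ) < D := by exact_mod_cast Nat.pos_of_ne_zero hD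
    simp at h3
    exact hD h3
  have h6 : |(-(4 * D : ℤ))| = n ^ 2 * |discr K| := by
    rw [h3, abs_mul, abs_of_nonneg (sq_nonneg n)]
  have h9 : |(-(4 * D : ℤ))| = 4 * D := by
    rw [abs_neg, abs_of_nonneg (by positivity)]
  rw [h9] at h6
  rw [h6]
  have h7 : 1 ≤ n ^ 2 := by
    have := sq_nonneg n
    have h8 : n ^ 2 ≠ 0 := pow_ne_zero 2 hn
    omega
  nlinarith [abs_nonneg (discr K)]

lemma mink4 (hD : D ≠ 0) (ht : t ^ 2 = -(D : K)) (hK : Module.finrank ℚ K = 2) (w : 𝓞 K)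
    (hw : t = (w : K)) (C : ClassGroup (𝓞 K)) :
    ∃ I : nonZeroDivisors (Ideal (𝓞 K)), ClassGroup.mk0 I = C ∧
      (Ideal.absNorm (I : Ideal (𝓞 K)) : ℝ) ≤ 4 / Real.pi * √(D : ℝ) := by
  obtain ⟨I, hI, h⟩ := NumberField.exists_ideal_in_class_of_norm_le C
  refine ⟨I, hI, h.trans ?_⟩
  rw [nrComplex hD ht hK, hK]
  have h1 : √|((discr K : ℤ) : ℝ)| ≤ 2 * √(D : ℝ) := by
    rw [show (2 : ℝ) = √4 by rw [show (4 : ℝ) = 2 ^ 2 by norm_num, Real.sqrt_sq (by norm_num)],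
      ← Real.sqrt_mul (by norm_num)]
    apply Real.sqrt_le_sqrt
    exact_mod_cast discr_le4 hD ht hK w hw
  have hpi := Real.pi_pos
  calc _ = 2 / Real.pi * √|((discr K : ℤ) : ℝ)| := by
        norm_num [Nat.factorial]
        ring
    _ ≤ 2 / Real.pi * (2 * √(D : ℝ)) := mul_le_mul_of_nonneg_left h1 (by positivity)
    _ = _ := by ring

end

theorem s_MK : S_MK := by
  intro D hD0 s hs J
  have hD : D ≠ 0 := hD0.ne'
  have ht : (⟨s, i₀_mem⟩ : KK s) ^ 2 = -(D : KK s) := by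
    apply Subtype.ext
    push_cast
    exact hs
  let t : KK s := ⟨s, i₀_mem⟩
  have hw : IsIntegral ℤ t := by
    refine ⟨X ^ 2 + C (D : ℤ), by monicity!, ?_⟩
    simp only [eval₂_add, eval₂_pow, eval₂_X, eval₂_C]
    push_cast
    have h2 : t ^ 2 = -(D : KK s) := ht
    linear_combination h2
  exact mink4 hD ht (finrank_KK hs hD) ⟨t, hw⟩ rfl J

end Pool.Agent.L7h37.SGQ
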